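import Mathlib
import Pool.Agent.Helper6.SW.Defs

set_option autoImplicit false

namespace Pool.Agent.Helper51.SW

open MeasureTheory Pool.Agent.Helper6.SW

/-- the basic kernel -/
noncomputable def gk (t : ℝ) : ℝ := (1 - Real.cos t) / t ^ 2

theorem gk_nonneg (t : ℝ) : 0 ≤ gk t := by
  unfold gk
  have := Real.cos_le_one t
  exact div_nonneg (by linarith) (sq_nonneg t)

theorem gk_le (t : ℝ) : gk t ≤ (5 / 2) / (1 + t ^ 2) := by
  unfold gk
  rcases eq_or_ne t 0 with h | h
  · subst h
    norm_num
  · have ht : 0 < t ^ 2 := by positivity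
    have h1 := Real.one_sub_sq_div_two_le_cos (x := t)
    have h2 := Real.neg_one_le_cos t
    rw [div_le_div_iff₀ ht (by positivity)]
    nlinarith

theorem gk_meas : Measurable gk := by
  unfold gk
  fun_prop

theorem gk_int : Integrable gk := by
  have h := integrable_inv_one_add_sq.const_mul (5 / 2 : ℝ)
  refine h.mono' gk_meas.aestronglyMeasurable (Filter.Eventually.of_forall fun t => ?_)
  rw [Real.norm_eq_abs, abs_of_nonneg (gk_nonneg t)]
  have := gk_le t
  rwa [div_eq_mul_inv] at this

/-- the constant -/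
noncomputable def kap : ℝ := ∫ t, gk t

theorem kap_pos : 0 < kap := by
  unfold kap
  rw [integral_pos_iff_support_of_nonneg gk_nonneg gk_int]
  refine lt_of_lt_of_le ?_ (measure_mono (s := Set.Ioo (0 : ℝ) 1) ?_)
  · simp
  · intro t ht
    rw [Function.mem_support]
    unfold gk
    have h1 : Real.cos t < 1 := by
      have := Real.cos_lt_cos_of_nonneg_of_le_pi (x := 0) (y := t) le_rfl
        (by have := Real.pi_gt_three; linarith [ht.2]) ht.1
      rwa [Real.cos_zero] at this
    have h2 : t ≠ 0 := ne_of_gt ht.1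
    have : 0 < (1 - Real.cos t) / t ^ 2 := by
      apply div_pos (by linarith)
      positivity
    exact ne_of_gt this

theorem scale_eq (a t : ℝ) : (1 - Real.cos (a * t)) / t ^ 2 = a ^ 2 * gk (a * t) := by
  unfold gk
  rcases eq_or_ne a 0 with h | h
  · subst h; simp
  rcases eq_or_ne t 0 with h' | h'
  · subst h'; simp
  · field_simp

theorem scale_int (a : ℝ) : Integrable (fun t => (1 - Real.cos (a * t)) / t ^ 2) := by
  rcases eq_or_ne a 0 with h | h
  · subst h
    simp
  · simp only [scale_eq]
    exact (gk_int.comp_mul_left' h).const_mul _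

theorem scale_integral (a : ℝ) : ∫ t, (1 - Real.cos (a * t)) / t ^ 2 = kap * |a| := by
  simp only [scale_eq]
  rw [integral_const_mul, Measure.integral_comp_mul_left]
  rcases eq_or_ne a 0 with h | h
  · subst h; simp
  · rw [smul_eq_mul, abs_inv]
    unfold kap
    have h1 : |a| ≠ 0 := abs_ne_zero.2 h
    rw [← sq_abs a]
    field_simp

/-- the weight -/
noncomputable def wt (V t : ℝ) : ℝ := (kap * V)⁻¹ * ((1 - Real.cos (V * t)) / t ^ 2)

theorem wt_nonneg {V : ℝ} (hV : 0 < V) (t : ℝ) : 0 ≤ wt V t := by
  unfold wt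
  have h1 := kap_pos
  rw [scale_eq]
  have h2 := gk_nonneg (V * t)
  positivity

theorem wt_int (V : ℝ) : Integrable (wt V) := (scale_int V).const_mul _

theorem wt_meas (V : ℝ) : Measurable (wt V) := by
  unfold wt
  fun_prop

theorem wt_cos_int (V v : ℝ) : Integrable (fun t => wt V t * Real.cos (t * v)) := by
  refine (wt_int V).norm.mono' ?_ (Filter.Eventually.of_forall fun t => ?_)
  · apply Measurable.aestronglyMeasurable
    have := wt_meas V
    fun_prop
  · rw [norm_mul]
    have h : ‖Real.cos (t * v)‖ ≤ 1 := Real.abs_cos_le_one _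
    exact mul_le_of_le_one_right (norm_nonneg _) h

theorem wt_sin_int (V v : ℝ) : Integrable (fun t => wt V t * Real.sin (t * v)) := by
  refine (wt_int V).norm.mono' ?_ (Filter.Eventually.of_forall fun t => ?_)
  · apply Measurable.aestronglyMeasurable
    have := wt_meas V
    fun_prop
  · rw [norm_mul]
    have h : ‖Real.sin (t * v)‖ ≤ 1 := Real.abs_sin_le_one _
    exact mul_le_of_le_one_right (norm_nonneg _) h

theorem wt_sin_zero (V v : ℝ) : ∫ t, wt V t * Real.sin (t * v) = 0 := by
  have h := integral_neg_eq_self (fun t => wt V t * Real.sin (t * v)) volume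
  have h1 : (fun t => wt V (-t) * Real.sin (-t * v)) =
      fun t => -(wt V t * Real.sin (t * v)) := by
    funext t
    unfold wt
    rw [neg_mul, Real.sin_neg, mul_neg V t, Real.cos_neg, neg_sq, mul_neg]
  rw [h1, integral_neg] at h
  linarith

theorem wt_cos_integral {V : ℝ} (hV : 0 < V) (v : ℝ) :
    ∫ t, wt V t * Real.cos (t * v) = tent V v := by
  have h1 : (fun t => wt V t * Real.cos (t * v)) = fun t => (kap * V)⁻¹ * (1 / 2) *
      ((1 - Real.cos ((V + v) * t)) / t ^ 2 + (1 - Real.cos ((V - v) * t)) / t ^ 2 -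
        2 * ((1 - Real.cos (v * t)) / t ^ 2)) := by
    funext t
    unfold wt
    have h2 : Real.cos ((V + v) * t) = Real.cos (V * t) * Real.cos (t * v) -
        Real.sin (V * t) * Real.sin (t * v) := by
      rw [← Real.cos_add]; congr 1; ring
    have h3 : Real.cos ((V - v) * t) = Real.cos (V * t) * Real.cos (t * v) +
        Real.sin (V * t) * Real.sin (t * v) := by
      rw [← Real.cos_sub]; congr 1; ring
    rw [h2, h3, mul_comm v t]
    ring
  have hA : Integrable (fun t : ℝ => (1 - Real.cos ((V + v) * t)) / t ^ 2 +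
      (1 - Real.cos ((V - v) * t)) / t ^ 2) := (scale_int _).add (scale_int _)
  have hB : Integrable (fun t : ℝ => 2 * ((1 - Real.cos (v * t)) / t ^ 2)) :=
    (scale_int _).const_mul _
  rw [h1, integral_const_mul, integral_sub hA hB, integral_add (scale_int _) (scale_int _),
    integral_const_mul, scale_integral, scale_integral, scale_integral]
  have hk := kap_pos
  have h2 : (kap * V)⁻¹ * (1 / 2) * (kap * |V + v| + kap * |V - v| - 2 * (kap * |v|)) =
      (|V + v| + |V - v| - 2 * |v|) / (2 * V) := by
    field_simp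
  rw [h2]
  unfold tent
  rcases le_or_gt |v| V with h | h
  · have h3 := abs_le.1 h
    rw [abs_of_nonneg (by linarith : 0 ≤ V + v), abs_of_nonneg (by linarith : 0 ≤ V - v),
      max_eq_right]
    · field_simp
      ring
    · rw [sub_nonneg, div_le_one hV]
      exact h
  · have h3 : |V + v| + |V - v| = 2 * |v| := by
      rcases le_total 0 v with h0 | h0
      · rw [abs_of_nonneg h0] at h ⊢
        rw [abs_of_nonneg (by linarith : 0 ≤ V + v), abs_of_nonpos (by linarith : V - v ≤ 0)]
        ring
      · rw [abs_of_nonpos h0] at h ⊢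
        rw [abs_of_nonpos (by linarith : V + v ≤ 0), abs_of_nonneg (by linarith : 0 ≤ V - v)]
        ring
    rw [h3, sub_self, zero_div, max_eq_left]
    rw [sub_nonpos, one_le_div hV]
    exact h.le

theorem stTent : StTent := by
  intro V hV
  refine ⟨wt V, (kap * V)⁻¹ * (V ^ 2 * (5 / 2) + 2), ⟨wt_int V, wt_nonneg hV, fun v => ?_⟩,
    fun t => ?_⟩
  · have h1 : (fun t : ℝ => ((wt V t : ℝ) : ℂ) * Complex.exp (Complex.I * (t * v : ℝ))) =
        fun t : ℝ => ((wt V t * Real.cos (t * v) : ℝ) : ℂ) +
          Complex.I * ((wt V t * Real.sin (t * v) : ℝ) : ℂ) := by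
      funext t
      rw [mul_comm Complex.I, Complex.exp_mul_I]
      push_cast
      ring
    rw [h1, integral_add (wt_cos_int V v).ofReal ((wt_sin_int V v).ofReal.const_mul _),
      integral_const_mul]
    have h2 : ∫ t, ((wt V t * Real.cos (t * v) : ℝ) : ℂ) = ((tent V v : ℝ) : ℂ) := by
      rw [← wt_cos_integral hV v]
      exact integral_ofReal
    have h3 : ∫ t, ((wt V t * Real.sin (t * v) : ℝ) : ℂ) = ((0 : ℝ) : ℂ) := by
      rw [← wt_sin_zero V v]
      exact integral_ofReal
    rw [h2, h3]
    simp
  · unfold wt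
    have hk := kap_pos
    rw [mul_div_assoc]
    refine mul_le_mul_of_nonneg_left ?_ (by positivity)
    rcases eq_or_ne t 0 with h | h
    · subst h
      simp only [mul_zero, Real.cos_zero, sub_self, zero_div]
      positivity
    · have ht : 0 < t ^ 2 := by positivity
      have h1 := Real.one_sub_sq_div_two_le_cos (x := V * t)
      have h2 := Real.neg_one_le_cos (V * t)
      rw [div_le_div_iff₀ ht (by positivity)]
      nlinarith [mul_pos ht (by positivity : 0 < V ^ 2)]

end Pool.Agent.Helper51.SW
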