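import Mathlib
import Pool.Agent.Helper6.SW.Defs

set_option autoImplicit false

namespace Pool.Agent.Helper51.SW

open Pool.Agent.Helper6.SW DirichletCharacter

theorem one_le_ell (N : ℕ) [NeZero N] (t : ℝ) : 1 ≤ ell N t := by
  unfold ell
  have hN : (1 : ℝ) ≤ N := by exact_mod_cast NeZero.one_le
  have h3 : (3 : ℝ) ≤ N * (|t| + 3) := by nlinarith [abs_nonneg t]
  rw [Real.le_log_iff_exp_le (by linarith)]
  have := Real.exp_one_lt_d9
  linarith

theorem ell_mono (N : ℕ) [NeZero N] {t t' : ℝ} (h : |t| ≤ |t'|) : ell N t ≤ ell N t' := by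
  unfold ell
  have hN : (1 : ℝ) ≤ N := by exact_mod_cast NeZero.one_le
  apply Real.log_le_log
  · have := abs_nonneg t
    positivity
  · nlinarith

theorem ell_two (N : ℕ) [NeZero N] (t : ℝ) : ell N (2 * t) ≤ 2 * ell N t := by
  have h1 := one_le_ell N t
  have hN : (1 : ℝ) ≤ N := by exact_mod_cast NeZero.one_le
  have h2 : ell N (2 * t) ≤ Real.log 2 + ell N t := by
    unfold ell
    rw [← Real.log_mul (by norm_num) (by have := abs_nonneg t; positivity)]
    apply Real.log_le_log
    · have := abs_nonneg (2 * t)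
      positivity
    · rw [abs_mul, abs_two]
      nlinarith [abs_nonneg t]
  have h3 : Real.log 2 ≤ 1 := by have := Real.log_two_lt_d9; linarith
  linarith

/-- mean value inequality for `L` in a rectangle -/
theorem L_lip {C : ℝ} (hC0 : 0 < C) {N : ℕ} [NeZero N] {χ : DirichletCharacter ℂ N} (hχ : χ ≠ 1)
    (hC : ∀ s : ℂ, 1 - 1 / (3 * ell N s.im) ≤ s.re → s.re ≤ 2 →
      ‖deriv (LFunction χ) s‖ ≤ C * ell N s.im ^ 2) (t : ℝ) {z w : ℂ}
    (hz : 1 ≤ z.re ∧ z.re ≤ 2 ∧ |z.im| ≤ |t|) (hw : 1 ≤ w.re ∧ w.re ≤ 2 ∧ |w.im| ≤ |t|) :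
    ‖LFunction χ w - LFunction χ z‖ ≤ C * ell N t ^ 2 * ‖w - z‖ := by
  let S : Set ℂ := {z | 1 ≤ z.re ∧ z.re ≤ 2 ∧ |z.im| ≤ |t|}
  have hS : Convex ℝ S := by
    have h : S = (Complex.reLm ⁻¹' Set.Icc 1 2) ∩ (Complex.imLm ⁻¹' Set.Icc (-|t|) |t|) := by
      ext z
      simp only [S, Set.mem_ofPred_eq, Set.mem_inter_iff, Set.mem_preimage, Set.mem_Icc, abs_le]
      simp only [Complex.reLm_coe, Complex.imLm_coe]
      tauto
    rw [h]
    exact ((convex_Icc _ _).linear_preimage _).inter ((convex_Icc _ _).linear_preimage _)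
  refine hS.norm_image_sub_le_of_norm_deriv_le (f := LFunction χ) (fun s _ =>
    (differentiable_LFunction hχ).differentiableAt) (fun s hs => ?_) hz hw
  have h1 : 1 ≤ ell N s.im := one_le_ell N s.im
  have h2 : ell N s.im ≤ ell N t := ell_mono N hs.2.2
  refine (hC s ?_ hs.2.1).trans ?_
  · have : 0 ≤ 1 / (3 * ell N s.im) := by positivity
    linarith [hs.1]
  · apply mul_le_mul_of_nonneg_left _ hC0.le
    exact pow_le_pow_left₀ (by linarith) h2 2

/-- lower bound from an upper bound for the square of the character -/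
theorem lower_aux {C : ℝ} (hC1 : 1 ≤ C) {N : ℕ} [NeZero N] {χ : DirichletCharacter ℂ N}
    (hχ : χ ≠ 1) (hC : ∀ s : ℂ, 1 - 1 / (3 * ell N s.im) ≤ s.re → s.re ≤ 2 →
      ‖deriv (LFunction χ) s‖ ≤ C * ell N s.im ^ 2)
    (hA : ∀ x : ℝ, 0 < x → x ≤ 1 → ‖LFunctionTrivChar N (1 + x)‖ ≤ 2 / x) {M t : ℝ} (hM : 1 ≤ M)
    (hMb : ∀ x : ℝ, 0 < x → x ≤ 1 → ‖LFunction (χ ^ 2) (1 + x + 2 * Complex.I * t)‖ ≤ M)
    {x : ℝ} (hx0 : 0 < x) (hx1 : x ≤ 1) :
    1 / (128 * C ^ 3 * M * ell N t ^ 6) ≤ ‖LFunction χ (1 + x + Complex.I * t)‖ := by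
  have hl := one_le_ell N t
  set l := ell N t with hldef
  set x₁ : ℝ := 1 / (128 * C ^ 4 * M * l ^ 8) with hx₁
  have hden : 1 ≤ 128 * C ^ 4 * M * l ^ 8 := by
    have h1 : 1 ≤ C ^ 4 := one_le_pow₀ hC1
    have h2 : 1 ≤ l ^ 8 := one_le_pow₀ hl
    have h3 : 1 ≤ 128 * C ^ 4 := by linarith
    have h4 : 1 ≤ 128 * C ^ 4 * M := one_le_mul_of_one_le_of_one_le h3 hM
    exact one_le_mul_of_one_le_of_one_le h4 h2
  have hx₁0 : 0 < x₁ := by rw [hx₁]; positivity
  have hx₁1 : x₁ ≤ 1 := by
    rw [hx₁, div_le_one (by linarith)]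
    exact hden
  -- the range of large `x`
  have hlarge : ∀ y : ℝ, x₁ ≤ y → y ≤ 1 →
      1 / (64 * C ^ 3 * M * l ^ 6) ≤ ‖LFunction χ (1 + y + Complex.I * t)‖ := by
    intro y hy1 hy2
    have hy0 : 0 < y := lt_of_lt_of_le hx₁0 hy1
    have h1 := χ.norm_LFunction_product_ge_one hy0 t
    rw [norm_mul, norm_mul, norm_pow, norm_pow] at h1
    have h2 := hA y hy0 hy2
    have h3 := hMb y hy0 hy2
    set a := ‖LFunction χ (1 + y + Complex.I * t)‖ with ha
    have h4 : ‖LFunctionTrivChar N (1 + y)‖ ^ 3 ≤ (2 / y) ^ 3 :=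
      pow_le_pow_left₀ (norm_nonneg _) h2 3
    have h5 : 1 ≤ (2 / y) ^ 3 * a ^ 4 * M := by
      refine le_trans h1 ?_
      apply mul_le_mul _ h3 (norm_nonneg _) (by positivity)
      exact mul_le_mul_of_nonneg_right h4 (by positivity)
    have h6 : y ^ 3 / (8 * M) ≤ a ^ 4 := by
      rw [div_le_iff₀ (by positivity)]
      have h7 : (2 / y) ^ 3 * a ^ 4 * M * y ^ 3 = a ^ 4 * (8 * M) := by
        field_simp
        ring
      rw [← h7]
      exact le_mul_of_one_le_left (by positivity) h5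
    have h7 : (1 / (64 * C ^ 3 * M * l ^ 6)) ^ 4 ≤ a ^ 4 := by
      refine le_trans ?_ h6
      have h8 : x₁ ^ 3 / (8 * M) ≤ y ^ 3 / (8 * M) := by
        apply div_le_div_of_nonneg_right _ (by positivity)
        exact pow_le_pow_left₀ hx₁0.le hy1 3
      refine le_trans (le_of_eq ?_) h8
      rw [hx₁]
      field_simp
      ring
    exact (pow_le_pow_iff_left₀ (by positivity) (norm_nonneg _) (by norm_num)).1 h7
  rcases le_or_gt x₁ x with h | h
  · refine le_trans ?_ (hlarge x h hx1)
    apply one_div_le_one_div_of_le (by positivity)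
    have : 0 ≤ C ^ 3 * M * l ^ 6 := by positivity
    nlinarith
  · have h1 := hlarge x₁ le_rfl hx₁1
    have h2 := L_lip (by linarith) hχ hC t (z := 1 + x + Complex.I * t)
      (w := 1 + x₁ + Complex.I * t) (by
        refine ⟨?_, ?_, ?_⟩
        · simp [hx0.le]
        · simp; linarith
        · simp) (by
        refine ⟨?_, ?_, ?_⟩
        · simp [hx₁0.le]
        · simp; linarith
        · simp)
    have h3 : ‖(1 + x₁ + Complex.I * t : ℂ) - (1 + x + Complex.I * t)‖ ≤ x₁ := by
      have : (1 + x₁ + Complex.I * t : ℂ) - (1 + x + Complex.I * t) = ((x₁ - x : ℝ) : ℂ) := by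
        push_cast; ring
      rw [this, Complex.norm_real, Real.norm_eq_abs, abs_of_pos (by linarith)]
      linarith
    have h4 : C * l ^ 2 * ‖(1 + x₁ + Complex.I * t : ℂ) - (1 + x + Complex.I * t)‖ ≤
        1 / (128 * C ^ 3 * M * l ^ 6) := by
      refine (mul_le_mul_of_nonneg_left h3 (by positivity)).trans (le_of_eq ?_)
      rw [hx₁]
      field_simp
    have h5 : 1 / (64 * C ^ 3 * M * l ^ 6) = 2 * (1 / (128 * C ^ 3 * M * l ^ 6)) := by
      field_simp
      norm_num
    have h6 := norm_sub_norm_le (LFunction χ (1 + x₁ + Complex.I * t))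
      (LFunction χ (1 + x + Complex.I * t))
    rw [h5] at h1
    linarith

theorem stLower_of (hU : StUpper) (hD : StDeriv) (hA : StTrivA) (hB : StTrivB) : StLower := by
  obtain ⟨Cu, hCu0, hCu⟩ := hU
  obtain ⟨Cd, hCd0, hCd⟩ := hD
  obtain ⟨Cb, hCb0, hCb⟩ := hB
  set C : ℝ := Cd + 1 with hCdef
  have hC1 : 1 ≤ C := by linarith
  set C₁ : ℝ := 2 * Cu + 1 with hC₁
  set C₂ : ℝ := 8 * C * Cb + 1 with hC₂
  have hC₁1 : 1 ≤ C₁ := by linarith
  have hC₂1 : 1 ≤ C₂ := by
    have : 0 < 8 * C * Cb := by positivity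
    linarith
  refine ⟨1 / (128 * C ^ 3 * (C₁ * C₂)), by positivity, ?_⟩
  intro N _ χ hχ δ x t hδ0 hδ1 hδ hx0 hx1
  have hl := one_le_ell N t
  set l := ell N t with hldef
  have hC : ∀ s : ℂ, 1 - 1 / (3 * ell N s.im) ≤ s.re → s.re ≤ 2 →
      ‖deriv (LFunction χ) s‖ ≤ C * ell N s.im ^ 2 := by
    intro s h1 h2
    refine (hCd N χ hχ s h1 h2).trans ?_
    apply mul_le_mul_of_nonneg_right _ (by positivity)
    linarith
  have hA' : ∀ y : ℝ, 0 < y → y ≤ 1 → ‖LFunctionTrivChar N (1 + y)‖ ≤ 2 / y := by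
    intro y hy0 hy1
    have h := hA N y 0 hy0 hy1
    simpa using h
  have hCpos : 0 < C := by linarith
  have hlpos : 0 < l := by linarith
  have hC3 : 1 ≤ C ^ 3 := one_le_pow₀ hC1
  have hl2 : 1 ≤ l ^ 2 := one_le_pow₀ hl
  by_cases hχ2 : χ ^ 2 = 1
  · set τ : ℝ := δ / (4 * C * l ^ 2) with hτ
    have hτ0 : 0 < τ := by rw [hτ]; positivity
    have hδL := hδ hχ2
    rcases le_or_gt τ |t| with ht | ht
    · -- `t` not small
      have ht0 : t ≠ 0 := by
        intro h; rw [h, abs_zero] at ht; linarith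
      have h1 : 1 / (128 * C ^ 3 * (C₂ * l ^ 3 / δ) * l ^ 6) ≤
          ‖LFunction χ (1 + x + Complex.I * t)‖ := by
        apply lower_aux hC1 hχ hC hA' _ _ hx0 hx1
        · rw [le_div_iff₀ hδ0]
          have : 1 ≤ l ^ 3 := one_le_pow₀ hl
          nlinarith
        · intro y hy0 hy1
          have h2 := hCb N y (2 * t) hy0 hy1 (by simpa using ht0)
          rw [hχ2]
          have e1 : (1 + y + 2 * Complex.I * t : ℂ) = 1 + y + Complex.I * ((2 * t : ℝ) : ℂ) := by
            push_cast; ring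
          rw [e1]
          refine h2.trans ?_
          have h3 : ell N (2 * t) ≤ 2 * l := ell_two N t
          have h4 : 1 ≤ ell N (2 * t) := one_le_ell N _
          have h5 : 1 / |2 * t| ≤ 2 * C * l ^ 2 / δ := by
            rw [abs_mul, abs_two]
            rw [div_le_div_iff₀ (by positivity) hδ0]
            have h6 : δ = τ * (4 * C * l ^ 2) := by
              rw [hτ]; field_simp
            have h7 : τ * (4 * C * l ^ 2) ≤ |t| * (4 * C * l ^ 2) :=
              mul_le_mul_of_nonneg_right ht (by positivity)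
            linarith
          have h6 : ell N (2 * t) + 1 / |2 * t| ≤ 4 * C * l ^ 2 / δ := by
            have h7 : 2 * l ≤ 2 * C * l ^ 2 / δ := by
              rw [le_div_iff₀ hδ0]
              have : l ≤ C * l ^ 2 := by nlinarith
              nlinarith
            have h8 : 4 * C * l ^ 2 / δ = 2 * C * l ^ 2 / δ + 2 * C * l ^ 2 / δ := by ring
            linarith
          have h9 : Cb * ell N (2 * t) * (ell N (2 * t) + 1 / |2 * t|) ≤
              Cb * (2 * l) * (4 * C * l ^ 2 / δ) := by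
            apply mul_le_mul _ h6 (by positivity) (by positivity)
            exact mul_le_mul_of_nonneg_left h3 hCb0.le
          refine h9.trans ?_
          have e2 : Cb * (2 * l) * (4 * C * l ^ 2 / δ) = (8 * C * Cb) * l ^ 3 / δ := by ring
          rw [e2]
          apply div_le_div_of_nonneg_right _ hδ0.le
          apply mul_le_mul_of_nonneg_right _ (by positivity)
          linarith
      refine le_trans ?_ h1
      have e3 : 1 / (128 * C ^ 3 * (C₂ * l ^ 3 / δ) * l ^ 6) = δ / (128 * C ^ 3 * C₂ * l ^ 9) := by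
        field_simp
      have e4 : 1 / (128 * C ^ 3 * (C₁ * C₂)) * δ / l ^ 9 =
          δ / (128 * C ^ 3 * C₂ * l ^ 9) * (1 / C₁) := by
        field_simp
      rw [e3, e4]
      apply mul_le_of_le_one_right (by positivity)
      rw [div_le_one (by linarith)]
      exact hC₁1
    · have hτ1 : τ ≤ 1 := by
        rw [hτ, div_le_one (by positivity)]
        nlinarith
      have hbound : 1 / (128 * C ^ 3 * (C₁ * C₂)) * δ / l ^ 9 ≤ δ / (128 * C ^ 3 * l ^ 9) := by
        have e4 : 1 / (128 * C ^ 3 * (C₁ * C₂)) * δ / l ^ 9 =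
            δ / (128 * C ^ 3 * l ^ 9) * (1 / (C₁ * C₂)) := by
          field_simp
        rw [e4]
        apply mul_le_of_le_one_right (by positivity)
        rw [div_le_one (by positivity)]
        exact one_le_mul_of_one_le_of_one_le hC₁1 hC₂1
      rcases le_or_gt x τ with hxτ | hxτ
      · have h2 := L_lip (by linarith) hχ hC t (z := 1) (w := 1 + x + Complex.I * t) (by
          refine ⟨?_, ?_, ?_⟩ <;> simp) (by
          refine ⟨?_, ?_, ?_⟩
          · simp [hx0.le]
          · simp; linarith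
          · simp)
        have h3 : ‖(1 + x + Complex.I * t : ℂ) - 1‖ ≤ 2 * τ := by
          have e : (1 + x + Complex.I * t : ℂ) - 1 = (x : ℂ) + Complex.I * t := by ring
          rw [e]
          refine (norm_add_le _ _).trans ?_
          rw [norm_mul, Complex.norm_I, one_mul, Complex.norm_real, Complex.norm_real,
            Real.norm_eq_abs, Real.norm_eq_abs, abs_of_pos hx0]
          linarith
        have h4 : C * l ^ 2 * ‖(1 + x + Complex.I * t : ℂ) - 1‖ ≤ δ / 2 := by
          refine (mul_le_mul_of_nonneg_left h3 (by positivity)).trans (le_of_eq ?_)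
          rw [hτ]
          field_simp
          norm_num
        have h5 := norm_sub_norm_le (LFunction χ 1) (LFunction χ (1 + x + Complex.I * t))
        rw [norm_sub_rev] at h5
        have h6 : δ / 2 ≤ ‖LFunction χ (1 + x + Complex.I * t)‖ := by linarith
        refine hbound.trans (le_trans ?_ h6)
        apply div_le_div_of_nonneg_left hδ0.le (by norm_num)
        have : 1 ≤ l ^ 9 := one_le_pow₀ hl
        nlinarith [one_le_mul_of_one_le_of_one_le hC3 this]
      · have h1 := χ.norm_LFunction_product_ge_one hx0 t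
        rw [norm_mul, norm_mul, norm_pow, norm_pow, hχ2] at h1
        have h2 := hA' x hx0 hx1
        have h3 := hA N x (2 * t) hx0 hx1
        have e1 : (1 + x + Complex.I * ((2 * t : ℝ) : ℂ) : ℂ) = 1 + x + 2 * Complex.I * t := by
          push_cast; ring
        rw [e1] at h3
        set a := ‖LFunction χ (1 + x + Complex.I * t)‖ with ha
        have h4 : ‖LFunctionTrivChar N (1 + x)‖ ^ 3 ≤ (2 / x) ^ 3 :=
          pow_le_pow_left₀ (norm_nonneg _) h2 3
        have h5 : 1 ≤ (2 / x) ^ 3 * a ^ 4 * (2 / x) := by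
          refine le_trans h1 ?_
          apply mul_le_mul _ h3 (norm_nonneg _) (by positivity)
          exact mul_le_mul_of_nonneg_right h4 (by positivity)
        have h6 : (x / 2) ^ 4 ≤ a ^ 4 := by
          have e2 : (x / 2) ^ 4 * ((2 / x) ^ 3 * a ^ 4 * (2 / x)) = a ^ 4 := by
            field_simp
          calc (x / 2) ^ 4 ≤ (x / 2) ^ 4 * ((2 / x) ^ 3 * a ^ 4 * (2 / x)) :=
                le_mul_of_one_le_right (by positivity) h5
            _ = a ^ 4 := e2
        have h7 : x / 2 ≤ a :=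
          (pow_le_pow_iff_left₀ (by positivity) (norm_nonneg _) (by norm_num)).1 h6
        have h8 : τ / 2 ≤ a := by linarith
        refine hbound.trans (le_trans ?_ h8)
        have e5 : τ / 2 = δ / (8 * C * l ^ 2) := by
          rw [hτ]; field_simp; norm_num
        rw [e5]
        apply div_le_div_of_nonneg_left hδ0.le (by positivity)
        have h9 : C ≤ C ^ 3 := le_self_pow₀ hC1 (by norm_num)
        have h10 : l ^ 2 ≤ l ^ 9 := pow_le_pow_right₀ hl (by norm_num)
        have h11 : C * l ^ 2 ≤ C ^ 3 * l ^ 9 :=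
          mul_le_mul h9 h10 (by positivity) (by positivity)
        nlinarith [mul_pos hCpos (by positivity : 0 < l ^ 2)]
  · have h1 : 1 / (128 * C ^ 3 * (C₁ * l) * l ^ 6) ≤
        ‖LFunction χ (1 + x + Complex.I * t)‖ := by
      apply lower_aux hC1 hχ hC hA' _ _ hx0 hx1
      · exact one_le_mul_of_one_le_of_one_le hC₁1 hl
      · intro y hy0 hy1
        have him : (1 + y + 2 * Complex.I * t : ℂ).im = 2 * t := by simp
        have hre : (1 + y + 2 * Complex.I * t : ℂ).re = 1 + y := by simp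
        have h2 := hCu N (χ ^ 2) hχ2 (1 + y + 2 * Complex.I * t) (by
          rw [him, hre]
          have := one_le_ell N (2 * t)
          have : 0 ≤ 1 / ell N (2 * t) := by positivity
          linarith) (by rw [hre]; linarith)
        rw [him] at h2
        refine h2.trans ?_
        have h3 : ell N (2 * t) ≤ 2 * l := ell_two N t
        calc Cu * ell N (2 * t) ≤ Cu * (2 * l) := mul_le_mul_of_nonneg_left h3 hCu0.le
          _ = (2 * Cu) * l := by ring
          _ ≤ C₁ * l := mul_le_mul_of_nonneg_right (by linarith) hlpos.le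
    refine le_trans ?_ h1
    have e3 : 1 / (128 * C ^ 3 * (C₁ * C₂)) * δ / l ^ 9 =
        1 / (128 * C ^ 3 * (C₁ * l) * l ^ 6) * (δ / (C₂ * l ^ 2)) := by
      field_simp
    rw [e3]
    apply mul_le_of_le_one_right (by positivity)
    rw [div_le_one (by positivity)]
    have := one_le_mul_of_one_le_of_one_le hC₂1 hl2
    linarith

end Pool.Agent.Helper51.SW
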