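import Mathlib
import Pool.Agent.Helper6.SW.DefsZ
import Pool.Agent.Helper51.SW.Lower

set_option autoImplicit false

namespace Pool.Agent.Helper51.SW

open Pool.Agent.Helper6.SW DirichletCharacter

theorem zeta_lip {C : ℝ} (hC0 : 0 < C)
    (hC : ∀ s : ℂ, 1 ≤ |s.im| → 1 - 1 / (3 * ell 1 s.im) ≤ s.re → s.re ≤ 2 →
      ‖deriv riemannZeta s‖ ≤ C * ell 1 s.im ^ 2) {t : ℝ} (ht : 1 ≤ |t|) {z w : ℂ}
    (hz : 1 ≤ z.re ∧ z.re ≤ 2 ∧ z.im = t) (hw : 1 ≤ w.re ∧ w.re ≤ 2 ∧ w.im = t) :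
    ‖riemannZeta w - riemannZeta z‖ ≤ C * ell 1 t ^ 2 * ‖w - z‖ := by
  let S : Set ℂ := {z | 1 ≤ z.re ∧ z.re ≤ 2 ∧ z.im = t}
  have hS : Convex ℝ S := by
    have h : S = (Complex.reLm ⁻¹' Set.Icc 1 2) ∩ (Complex.imLm ⁻¹' {t}) := by
      ext z
      simp only [S, Set.mem_ofPred_eq, Set.mem_inter_iff, Set.mem_preimage, Set.mem_Icc,
        Set.mem_singleton_iff]
      simp only [Complex.reLm_coe, Complex.imLm_coe]
      tauto
    rw [h]
    exact ((convex_Icc _ _).linear_preimage _).inter ((convex_singleton _).linear_preimage _)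
  refine hS.norm_image_sub_le_of_norm_deriv_le (f := riemannZeta) (fun s hs => ?_)
    (fun s hs => ?_) hz hw
  · apply differentiableAt_riemannZeta
    intro h
    have h1 := hs.2.2
    rw [h] at h1
    simp at h1
    rw [← h1] at ht
    simp at ht
    linarith
  have h1 : 1 ≤ ell 1 s.im := one_le_ell 1 s.im
  have h3 := hs.2.2
  refine (hC s (by rw [h3]; exact ht) ?_ hs.2.1).trans ?_
  · have : 0 ≤ 1 / (3 * ell 1 s.im) := by positivity
    linarith [hs.1]
  · rw [h3]

theorem stZLower_of (hD : StZDeriv) (hA : StTrivA) (hB : StTrivB) : StZLower := by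
  obtain ⟨Cd, hCd0, hCd⟩ := hD
  obtain ⟨Cb, hCb0, hCb⟩ := hB
  set C : ℝ := Cd + 1 with hCdef
  have hC1 : 1 ≤ C := by linarith
  have hCpos : 0 < C := by linarith
  refine ⟨1 / (128 * C ^ 3 * (6 * Cb + 1)), by positivity, ?_⟩
  intro x t ht hx0 hx1
  have hC : ∀ s : ℂ, 1 ≤ |s.im| → 1 - 1 / (3 * ell 1 s.im) ≤ s.re → s.re ≤ 2 →
      ‖deriv riemannZeta s‖ ≤ C * ell 1 s.im ^ 2 := by
    intro s h0 h1 h2
    refine (hCd s h0 h1 h2).trans ?_
    apply mul_le_mul_of_nonneg_right _ (by positivity)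
    linarith
  have hl := one_le_ell 1 t
  set l := ell 1 t with hldef
  have hlpos : 0 < l := by linarith
  have hmod : LFunction (1 : DirichletCharacter ℂ 1) = riemannZeta := LFunction_modOne_eq
  have hA' : ∀ y : ℝ, 0 < y → y ≤ 1 → ‖riemannZeta (1 + y)‖ ≤ 2 / y := by
    intro y hy0 hy1
    have h := hA 1 y 0 hy0 hy1
    rw [hmod] at h
    simpa using h
  set M : ℝ := (6 * Cb + 1) * l ^ 2 with hMdef
  have hl2 : 1 ≤ l ^ 2 := one_le_pow₀ hl
  have hM : 1 ≤ M := one_le_mul_of_one_le_of_one_le (by linarith) hl2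
  have hMb : ∀ y : ℝ, 0 < y → y ≤ 1 → ‖riemannZeta (1 + y + 2 * Complex.I * t)‖ ≤ M := by
    intro y hy0 hy1
    have ht0 : t ≠ 0 := by
      intro h; rw [h, abs_zero] at ht; linarith
    have h2 := hCb 1 y (2 * t) hy0 hy1 (by simpa using ht0)
    rw [hmod] at h2
    have e1 : (1 + y + 2 * Complex.I * t : ℂ) = 1 + y + Complex.I * ((2 * t : ℝ) : ℂ) := by
      push_cast; ring
    rw [e1]
    refine h2.trans ?_
    have h3 : ell 1 (2 * t) ≤ 2 * l := ell_two 1 t
    have h4 : 1 ≤ ell 1 (2 * t) := one_le_ell 1 _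
    have h5 : 1 / |2 * t| ≤ 1 := by
      rw [abs_mul, abs_two, div_le_one (by positivity)]
      linarith
    have h6 : ell 1 (2 * t) + 1 / |2 * t| ≤ 3 * l := by linarith
    have h9 : Cb * ell 1 (2 * t) * (ell 1 (2 * t) + 1 / |2 * t|) ≤ Cb * (2 * l) * (3 * l) := by
      apply mul_le_mul _ h6 (by positivity) (by positivity)
      exact mul_le_mul_of_nonneg_left h3 hCb0.le
    refine h9.trans ?_
    rw [hMdef]
    nlinarith [sq_nonneg l]
  set x₁ : ℝ := 1 / (128 * C ^ 4 * M * l ^ 8) with hx₁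
  have hden : 1 ≤ 128 * C ^ 4 * M * l ^ 8 := by
    have h1 : 1 ≤ C ^ 4 := one_le_pow₀ hC1
    have h2 : 1 ≤ l ^ 8 := one_le_pow₀ hl
    have h3 : 1 ≤ 128 * C ^ 4 := by linarith
    have h4 : 1 ≤ 128 * C ^ 4 * M := one_le_mul_of_one_le_of_one_le h3 hM
    exact one_le_mul_of_one_le_of_one_le h4 h2
  have hMpos : 0 < M := by linarith
  have hx₁0 : 0 < x₁ := by rw [hx₁]; positivity
  have hx₁1 : x₁ ≤ 1 := by
    rw [hx₁, div_le_one (by linarith)]
    exact hden
  -- the range of large `x`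
  have hlarge : ∀ y : ℝ, x₁ ≤ y → y ≤ 1 →
      1 / (64 * C ^ 3 * M * l ^ 6) ≤ ‖riemannZeta (1 + y + Complex.I * t)‖ := by
    intro y hy1 hy2
    have hy0 : 0 < y := lt_of_lt_of_le hx₁0 hy1
    have h1 := (1 : DirichletCharacter ℂ 1).norm_LFunction_product_ge_one hy0 t
    have e0 : LFunctionTrivChar 1 = riemannZeta := hmod
    rw [one_pow, e0, hmod, norm_mul, norm_mul, norm_pow, norm_pow] at h1
    have h2 := hA' y hy0 hy2
    have h3 := hMb y hy0 hy2
    set a := ‖riemannZeta (1 + y + Complex.I * t)‖ with ha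
    have h4 : ‖riemannZeta (1 + y)‖ ^ 3 ≤ (2 / y) ^ 3 :=
      pow_le_pow_left₀ (norm_nonneg _) h2 3
    have h5 : 1 ≤ (2 / y) ^ 3 * a ^ 4 * M := by
      refine le_trans h1 ?_
      apply mul_le_mul _ h3 (norm_nonneg _) (by positivity)
      exact mul_le_mul_of_nonneg_right h4 (by positivity)
    have h6 : y ^ 3 / (8 * M) ≤ a ^ 4 := by
      rw [div_le_iff₀ (by positivity)]
      have h7 : (2 / y) ^ 3 * a ^ 4 * M * y ^ 3 = a ^ 4 * (8 * M) := by
        field_simp
        ring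
      rw [← h7]
      exact le_mul_of_one_le_left (by positivity) h5
    have h7 : (1 / (64 * C ^ 3 * M * l ^ 6)) ^ 4 ≤ a ^ 4 := by
      refine le_trans ?_ h6
      have h8 : x₁ ^ 3 / (8 * M) ≤ y ^ 3 / (8 * M) := by
        apply div_le_div_of_nonneg_right _ (by positivity)
        exact pow_le_pow_left₀ hx₁0.le hy1 3
      refine le_trans (le_of_eq ?_) h8
      rw [hx₁]
      field_simp
      ring
    exact (pow_le_pow_iff_left₀ (by positivity) (norm_nonneg _) (by norm_num)).1 h7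
  have hfin : 1 / (128 * C ^ 3 * M * l ^ 6) ≤ ‖riemannZeta (1 + x + Complex.I * t)‖ := by
    rcases le_or_gt x₁ x with h | h
    · refine le_trans ?_ (hlarge x h hx1)
      apply one_div_le_one_div_of_le (by positivity)
      have : 0 ≤ C ^ 3 * M * l ^ 6 := by positivity
      nlinarith
    · have h1 := hlarge x₁ le_rfl hx₁1
      have h2 := zeta_lip (by linarith) hC ht (z := 1 + x + Complex.I * t)
        (w := 1 + x₁ + Complex.I * t) (by
          refine ⟨?_, ?_, ?_⟩
          · simp [hx0.le]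
          · simp; linarith
          · simp) (by
          refine ⟨?_, ?_, ?_⟩
          · simp [hx₁0.le]
          · simp; linarith
          · simp)
      have h3 : ‖(1 + x₁ + Complex.I * t : ℂ) - (1 + x + Complex.I * t)‖ ≤ x₁ := by
        have : (1 + x₁ + Complex.I * t : ℂ) - (1 + x + Complex.I * t) = ((x₁ - x : ℝ) : ℂ) := by
          push_cast; ring
        rw [this, Complex.norm_real, Real.norm_eq_abs, abs_of_pos (by linarith)]
        linarith
      have h4 : C * l ^ 2 * ‖(1 + x₁ + Complex.I * t : ℂ) - (1 + x + Complex.I * t)‖ ≤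
          1 / (128 * C ^ 3 * M * l ^ 6) := by
        refine (mul_le_mul_of_nonneg_left h3 (by positivity)).trans (le_of_eq ?_)
        rw [hx₁]
        field_simp
      have h5 : 1 / (64 * C ^ 3 * M * l ^ 6) = 2 * (1 / (128 * C ^ 3 * M * l ^ 6)) := by
        field_simp
        norm_num
      have h6 := norm_sub_norm_le (riemannZeta (1 + x₁ + Complex.I * t))
        (riemannZeta (1 + x + Complex.I * t))
      rw [h5] at h1
      linarith
  refine le_trans ?_ hfin
  have e3 : 1 / (128 * C ^ 3 * (6 * Cb + 1)) / l ^ 9 =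
      1 / (128 * C ^ 3 * M * l ^ 6) * (1 / l) := by
    rw [hMdef]
    field_simp
  rw [e3]
  apply mul_le_of_le_one_right (by positivity)
  rw [div_le_one hlpos]
  exact hl

end Pool.Agent.Helper51.SW
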