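import Mathlib
import Pool.Agent.Helper6.SW.DefsZ
import Pool.Agent.Helper51.SW.ZLower

set_option autoImplicit false

namespace Pool.Agent.Helper51.SW

open Pool.Agent.Helper6.SW

theorem stZLD_of (hD : StZDeriv) (hL : StZLower) (hU : StZUp) : StZLD := by
  intro k
  obtain ⟨Cd, hCd0, hCd⟩ := hD
  obtain ⟨c₀, hc₀0, hc₀⟩ := hL
  obtain ⟨Cu, hCu0, hCu⟩ := hU
  set C : ℝ := Cd + 1 with hCdef
  set c : ℝ := min c₀ 1 with hcdef
  have hc0 : 0 < c := lt_min hc₀0 one_pos
  have hc1 : c ≤ 1 := min_le_right _ _
  have hC1 : 1 ≤ C := by linarith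
  refine ⟨k.factorial * (1 + 2 * Cu) * (16 * C / c) ^ (k + 1), by positivity, ?_⟩
  intro x t hx0 hx1 ht
  have hl := one_le_ell 1 t
  set l := ell 1 t with hldef
  have hlpos : 0 < l := by linarith
  have hl2 : 1 ≤ l ^ 2 := one_le_pow₀ hl
  have hl9 : 1 ≤ l ^ 9 := one_le_pow₀ hl
  set η : ℝ := c / l ^ 9 with hη
  have hη0 : 0 < η := by rw [hη]; positivity
  have hη1 : η ≤ 1 := by
    rw [hη, div_le_one (by positivity)]
    linarith
  set s : ℂ := 1 + x + Complex.I * t with hs
  have hηL : η ≤ ‖riemannZeta s‖ := by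
    refine le_trans ?_ (hc₀ x t (by linarith) hx0 (by linarith))
    rw [hη]
    apply div_le_div_of_nonneg_right _ (by positivity)
    exact min_le_left _ _
  set r : ℝ := η / (16 * C * l ^ 2) with hr
  have hr0 : 0 < r := by rw [hr]; positivity
  have hr16 : r ≤ 1 / (16 * l ^ 2) := by
    rw [hr, div_le_div_iff₀ (by positivity) (by positivity)]
    have : η * (16 * l ^ 2) ≤ 1 * (16 * l ^ 2) := mul_le_mul_of_nonneg_right hη1 (by positivity)
    nlinarith
  have hr16' : r ≤ 1 / 16 := hr16.trans (by
    rw [div_le_div_iff₀ (by positivity) (by norm_num)]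
    linarith)
  have hsre : s.re = 1 + x := by simp [hs]
  have hsim : s.im = t := by simp [hs]
  have hball : ∀ z ∈ Metric.closedBall s r, 1 ≤ |z.im| ∧ ell 1 z.im ≤ 2 * l ∧
      |z.re - (1 + x)| ≤ r := by
    intro z hz
    rw [mem_closedBall_iff_norm] at hz
    have h1 : |z.re - s.re| ≤ r := (Complex.abs_re_le_norm (z - s)).trans hz
    have h2 : |z.im - s.im| ≤ r := (Complex.abs_im_le_norm (z - s)).trans hz
    rw [hsre] at h1
    rw [hsim] at h2
    refine ⟨?_, ?_, h1⟩
    · have h4 : |t| ≤ |z.im| + |z.im - t| := by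
        have := abs_sub_abs_le_abs_sub t z.im
        rw [abs_sub_comm] at this
        linarith
      linarith
    · have h3 : |z.im| ≤ |2 * t| + 1 := by
        have h4 : |z.im| ≤ |t| + |z.im - t| := by
          have := abs_add_le t (z.im - t)
          simpa using this
        have h5 : |t| ≤ |2 * t| := by
          rw [abs_mul, abs_two]; nlinarith [abs_nonneg t]
        linarith
      have h4 : ell 1 z.im ≤ Real.log 2 + l := by
        rw [hldef]
        unfold ell
        rw [← Real.log_mul (by norm_num) (by have := abs_nonneg t; positivity)]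
        apply Real.log_le_log
        · have := abs_nonneg z.im
          positivity
        · rw [abs_mul, abs_two] at h3
          push_cast
          nlinarith [abs_nonneg t]
      have h5 : Real.log 2 ≤ 1 := by have := Real.log_two_lt_d9; linarith
      linarith
  have hne1 : ∀ z ∈ Metric.closedBall s r, z ≠ 1 := by
    intro z hz h
    have h1 := (hball z hz).1
    rw [h] at h1
    simp at h1
    linarith
  -- bound of the derivative in the closed ball
  have hderiv : ∀ z ∈ Metric.closedBall s r, ‖deriv riemannZeta z‖ ≤ 4 * C * l ^ 2 := by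
    intro z hz
    obtain ⟨h1, hell, h2⟩ := hball z hz
    have h2' := abs_le.1 h2
    have hell1 : 1 ≤ ell 1 z.im := one_le_ell 1 _
    have h4 := hCd z h1 (by
      have h5 : 1 / (16 * l ^ 2) ≤ 1 / (3 * ell 1 z.im) := by
        apply one_div_le_one_div_of_le (by positivity)
        nlinarith
      linarith [h2'.1]) (by linarith [h2'.2])
    refine h4.trans ?_
    have h5 : ell 1 z.im ^ 2 ≤ (2 * l) ^ 2 := pow_le_pow_left₀ (by linarith) hell 2
    calc Cd * ell 1 z.im ^ 2 ≤ C * (2 * l) ^ 2 :=
          mul_le_mul (by linarith) h5 (by positivity) (by linarith)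
      _ = 4 * C * l ^ 2 := by ring
  have hup : ∀ z ∈ Metric.closedBall s r, ‖riemannZeta z‖ ≤ Cu * (2 * l) := by
    intro z hz
    obtain ⟨h1, hell, h2⟩ := hball z hz
    have h2' := abs_le.1 h2
    have hell1 : 1 ≤ ell 1 z.im := one_le_ell 1 _
    have h4 := hCu z (by linarith) (by
      have h5 : 1 / (16 * l ^ 2) ≤ 1 / (ell 1 z.im) := by
        apply one_div_le_one_div_of_le (by positivity)
        nlinarith
      linarith [h2'.1]) (by linarith [h2'.2])
    exact h4.trans (mul_le_mul_of_nonneg_left hell hCu0.le)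
  -- lower bound of the function
  have hlow : ∀ z ∈ Metric.closedBall s r, η / 2 ≤ ‖riemannZeta z‖ := by
    intro z hz
    have h1 := (convex_closedBall s r).norm_image_sub_le_of_norm_deriv_le (f := riemannZeta)
      (fun z hz => differentiableAt_riemannZeta (hne1 z hz)) hderiv
      (Metric.mem_closedBall_self hr0.le) hz
    rw [mem_closedBall_iff_norm] at hz
    have h2 : 4 * C * l ^ 2 * ‖z - s‖ ≤ η / 4 := by
      refine (mul_le_mul_of_nonneg_left hz (by positivity)).trans (le_of_eq ?_)
      rw [hr]
      field_simp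
      norm_num
    have h3 := norm_sub_norm_le (riemannZeta s) (riemannZeta z)
    rw [norm_sub_rev] at h3
    linarith
  have hne : ∀ z ∈ Metric.closedBall s r, riemannZeta z ≠ 0 := by
    intro z hz h0
    have := hlow z hz
    rw [h0, norm_zero] at this
    linarith
  have hdiff : DiffContOnCl ℂ EZ (Metric.ball s r) := by
    apply DifferentiableOn.diffContOnCl
    rw [closure_ball s hr0.ne']
    intro z hz
    apply DifferentiableAt.differentiableWithinAt
    unfold EZ
    have h1 : DifferentiableAt ℂ riemannZeta z := differentiableAt_riemannZeta (hne1 z hz)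
    have h2 : DifferentiableAt ℂ (deriv riemannZeta) z := by
      have h3 : DifferentiableOn ℂ riemannZeta {1}ᶜ := fun w hw =>
        (differentiableAt_riemannZeta hw).differentiableWithinAt
      have h4 := h3.deriv (isOpen_compl_singleton)
      exact h4.differentiableAt (isOpen_compl_singleton.mem_nhds (hne1 z hz))
    exact (h2.neg.div h1 (hne z hz)).sub h1
  have hbd : ∀ z ∈ Metric.sphere s r, ‖EZ z‖ ≤ (1 + 2 * Cu) / r := by
    intro z hz
    have hz' := Metric.sphere_subset_closedBall hz
    unfold EZ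
    refine (norm_sub_le _ _).trans ?_
    rw [norm_div, norm_neg]
    have h1 := hderiv z hz'
    have h2 := hlow z hz'
    have h3 : 1 / r = (16 * C * l ^ 2) / η := by
      rw [hr]; field_simp
    have h4 : ‖deriv riemannZeta z‖ / ‖riemannZeta z‖ ≤ 1 / r := by
      rw [h3]
      rw [div_le_div_iff₀ (by linarith) hη0]
      have h4 : ‖deriv riemannZeta z‖ * η ≤ 4 * C * l ^ 2 * η :=
        mul_le_mul_of_nonneg_right h1 hη0.le
      have h5 : 16 * C * l ^ 2 * (η / 2) ≤ 16 * C * l ^ 2 * ‖riemannZeta z‖ :=
        mul_le_mul_of_nonneg_left h2 (by positivity)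
      have h6 : 0 < C * l ^ 2 * η := by positivity
      linarith
    have h5 : l ≤ 1 / r := by
      rw [le_div_iff₀ hr0]
      have h6 : l * r ≤ l * (1 / (16 * l ^ 2)) := mul_le_mul_of_nonneg_left hr16 hlpos.le
      have h7 : l * (1 / (16 * l ^ 2)) = 1 / (16 * l) := by field_simp
      have h8 : 1 / (16 * l) ≤ 1 := by
        rw [div_le_one (by positivity)]
        linarith
      linarith
    have h6 := hup z hz'
    have h7 : Cu * (2 * l) ≤ 2 * Cu * (1 / r) := by
      have := mul_le_mul_of_nonneg_left h5 hCu0.le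
      linarith
    have h8 : (1 + 2 * Cu) / r = 1 / r + 2 * Cu * (1 / r) := by
      field_simp
    rw [h8]
    linarith
  have hfin := Complex.norm_iteratedDeriv_le_of_forall_mem_sphere_norm_le k hr0 hdiff hbd
  refine hfin.trans (le_of_eq ?_)
  have e1 : 16 * C / c * l ^ 11 = 1 / r := by
    rw [hr, hη]
    field_simp
  have e2 : (1 / r) ^ (k + 1) = (1 / r) / r ^ k := by
    rw [pow_succ, one_div_pow]; ring
  have e3 : (16 * C / c) ^ (k + 1) * l ^ (11 * (k + 1)) = (1 / r) ^ (k + 1) := by
    rw [← e1, mul_pow (16 * C / c), ← pow_mul]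
  rw [mul_assoc, e3, e2]
  ring

end Pool.Agent.Helper51.SW
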