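import Mathlib
import Pool.Agent.Helper6.SW.DefsZ
import Pool.Agent.Helper51.SW.Transform

set_option autoImplicit false

namespace Pool.Agent.Helper51.SW

open MeasureTheory Pool.Agent.Helper6.SW LSeries

/-- the coefficients of `-ζ'/ζ - ζ` -/
noncomputable def cz (n : ℕ) : ℂ :=
  if n = 0 then 0 else ((ArithmeticFunction.vonMangoldt n : ℝ) : ℂ) - 1

theorem cz_zero : cz 0 = 0 := by
  simp [cz]

theorem summ_one {s : ℂ} (hs : 1 < s.re) : LSeriesSummable 1 s :=
  LSeriesSummable_one_iff.mpr hs

theorem term_cz (s : ℂ) (n : ℕ) : term cz s n =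
    term (fun n => ((ArithmeticFunction.vonMangoldt n : ℝ) : ℂ)) s n - term 1 s n := by
  rcases eq_or_ne n 0 with h | h
  · subst h; simp
  · rw [term_of_ne_zero h, term_of_ne_zero h, term_of_ne_zero h]
    simp only [cz, h, if_false, Pi.one_apply]
    ring

theorem cz_summable {s : ℂ} (hs : 1 < s.re) : LSeriesSummable cz s := by
  have h1 := ArithmeticFunction.LSeriesSummable_vonMangoldt hs
  have h2 := summ_one hs
  unfold LSeriesSummable at *
  have h3 := h1.sub h2
  refine h3.congr fun n => ?_
  exact (term_cz s n).symm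

theorem EZ_eq {s : ℂ} (hs : 1 < s.re) : EZ s = LSeries cz s := by
  unfold EZ
  rw [← ArithmeticFunction.LSeries_vonMangoldt_eq_deriv_riemannZeta_div hs,
    ← LSeries_one_eq_riemannZeta hs]
  unfold LSeries
  have h1 := ArithmeticFunction.LSeriesSummable_vonMangoldt hs
  have h2 := summ_one hs
  rw [← h1.tsum_sub h2]
  exact tsum_congr fun n => (term_cz s n).symm

theorem cz_abscissa {s : ℂ} (hs : 1 < s.re) : abscissaOfAbsConv cz < s.re := by
  have h : abscissaOfAbsConv cz ≤ (1 : ℝ) :=
    abscissaOfAbsConv_le_of_forall_lt_LSeriesSummable fun y hy => cz_summable (by simpa using hy)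
  exact h.trans_lt (by exact_mod_cast hs)

theorem iter_EZ_eq (k : ℕ) {s : ℂ} (hs : 1 < s.re) :
    iteratedDeriv k EZ s = (-1) ^ k * LSeries (logMul^[k] cz) s := by
  rw [← LSeries_iteratedDeriv k (cz_abscissa hs)]
  apply Filter.EventuallyEq.iteratedDeriv_eq
  have h : {z : ℂ | 1 < z.re} ∈ nhds s :=
    (isOpen_lt continuous_const Complex.continuous_re).mem_nhds hs
  filter_upwards [h] with z hz
  exact EZ_eq hz

theorem stZTransform : StZTransform := by
  intro V w hV hw k X hX
  obtain ⟨hwi, hw0, hwt⟩ := hw
  have hlog : 0 < Real.log X := Real.log_pos hX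
  set x : ℝ := 1 / Real.log X with hx
  have hx0 : 0 < x := by rw [hx]; positivity
  set g : ℕ → ℂ := logMul^[k] cz with hg
  have hg0 : g 0 = 0 := by rw [hg, logMul_iter, cz_zero, mul_zero]
  set a : ℕ → ℂ := fun n => g n * (n : ℂ) ^ (-(1 + x : ℂ)) with ha
  have hgs : LSeriesSummable g (1 + x : ℂ) := by
    apply LSeriesSummable_of_abscissaOfAbsConv_lt_re
    rw [hg, absicssaOfAbsConv_logPowMul]
    apply cz_abscissa
    simp [hx0]
  have hterm : ∀ (s : ℂ) (n : ℕ), term g s n = g n * (n : ℂ) ^ (-s) := by
    intro s n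
    rcases eq_or_ne n 0 with h | h
    · subst h; simp [hg0]
    · rw [term_of_ne_zero h, Complex.cpow_neg, div_eq_mul_inv]
  have hasum : Summable (fun n => ‖a n‖) := by
    have h := hgs.norm
    simp only [hterm] at h
    exact h
  set F : ℕ → ℝ → ℂ := fun n t =>
    a n * (((w t : ℝ) : ℂ) * Complex.exp (Complex.I * (t * (Real.log n - Real.log X) : ℝ))) with hF
  have hexp : ∀ r : ℝ, ‖Complex.exp (Complex.I * (r : ℂ))‖ = 1 := by
    intro r
    rw [mul_comm]
    exact Complex.norm_exp_ofReal_mul_I r
  have hbase : ∀ v : ℝ, Integrable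
      (fun t : ℝ => ((w t : ℝ) : ℂ) * Complex.exp (Complex.I * (t * v : ℝ))) := by
    intro v
    refine hwi.norm.mono' ?_ (Filter.Eventually.of_forall fun t => ?_)
    · refine hwi.ofReal.aestronglyMeasurable.mul ?_
      apply Continuous.aestronglyMeasurable
      fun_prop
    · rw [norm_mul, hexp, mul_one, Complex.norm_real]
  have hFint : ∀ n, Integrable (F n) := fun n => (hbase _).const_mul _
  have hFnorm : ∀ n t, ‖F n t‖ = ‖a n‖ * w t := by
    intro n t
    rw [hF]
    simp only
    rw [norm_mul (a n), norm_mul ((w t : ℝ) : ℂ), hexp, mul_one, Complex.norm_real,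
      Real.norm_eq_abs, abs_of_nonneg (hw0 t)]
  have hFsum : Summable fun n => ∫ t, ‖F n t‖ := by
    simp only [hFnorm, integral_const_mul]
    exact hasum.mul_right _
  have hmain := hasSum_integral_of_summable_integral_norm hFint hFsum
  have hFi : ∀ n, ∫ t, F n t = a n * ((tent V (Real.log n - Real.log X) : ℝ) : ℂ) := by
    intro n
    rw [hF]
    simp only
    rw [integral_const_mul, hwt]
  have hPsi : (((∑ n ∈ Finset.Icc 1 (NX V X),
      (ArithmeticFunction.vonMangoldt n - 1) * om V k X n : ℝ)) : ℂ) = ∫ t, ∑' n, F n t := by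
    rw [← hmain.tsum_eq]
    simp only [hFi]
    rw [tsum_eq_sum (s := Finset.Icc 1 (NX V X))]
    · rw [Complex.ofReal_sum]
      refine Finset.sum_congr rfl fun n hn => ?_
      rw [Finset.mem_Icc] at hn
      have hn0 : n ≠ 0 := by omega
      have h1 : ((om V k X n : ℝ) : ℂ) = (Real.log n : ℂ) ^ k * (n : ℂ) ^ (-(1 + x : ℂ)) *
          ((tent V (Real.log n - Real.log X) : ℝ) : ℂ) := by
        unfold om
        rw [Complex.ofReal_mul, Complex.ofReal_mul, Complex.ofReal_pow,
          Complex.ofReal_cpow (by positivity)]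
        congr 3
        rw [hx]
        push_cast
        ring
      rw [Complex.ofReal_mul, h1, ha]
      simp only
      rw [hg, logMul_iter]
      simp only [cz, hn0, if_false]
      push_cast
      ring
    · intro n hn
      rw [Finset.mem_Icc, not_and_or] at hn
      rcases eq_or_ne n 0 with h0 | h0
      · subst h0
        rw [ha]
        simp only
        rw [hg0, zero_mul, zero_mul]
      · have h2 : NX V X < n := by
          rcases hn with h | h <;> omega
        have h3 : Real.exp V * X < n := by
          unfold NX at h2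
          exact (Nat.floor_lt' h0).1 h2
        have h4 : V + Real.log X < Real.log n := by
          have h5 := Real.log_lt_log (by positivity) h3
          rwa [Real.log_mul (by positivity) (by positivity), Real.log_exp] at h5
        have h5 : tent V (Real.log n - Real.log X) = 0 := by
          unfold tent
          rw [max_eq_left]
          rw [sub_nonpos, one_le_div hV]
          rw [abs_of_pos (by linarith)]
          linarith
        rw [h5]
        simp
  rw [← Real.norm_eq_abs, ← Complex.norm_real, hPsi]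
  refine (norm_integral_le_integral_norm _).trans (le_of_eq ?_)
  congr 1
  funext t
  have hre : (1 : ℝ) < (1 + ((x : ℝ) : ℂ) + Complex.I * ((-t : ℝ) : ℂ)).re := by
    simp [hx0]
  rw [iter_EZ_eq k hre]
  have h1 : ∑' n, F n t = (((w t : ℝ) : ℂ) * Complex.exp (Complex.I * (-(t * Real.log X) : ℝ))) *
      LSeries g (1 + ((x : ℝ) : ℂ) + Complex.I * ((-t : ℝ) : ℂ)) := by
    unfold LSeries
    rw [← tsum_mul_left]
    congr 1
    funext n
    rw [hterm, hF, ha]
    simp only
    rcases eq_or_ne n 0 with h0 | h0
    · subst h0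
      rw [hg0]; simp
    · have hnc : (n : ℂ) ≠ 0 := by exact_mod_cast h0
      have h2 : (n : ℂ) ^ (-(1 + ((x : ℝ) : ℂ) + Complex.I * ((-t : ℝ) : ℂ))) =
          (n : ℂ) ^ (-(1 + x : ℂ)) * Complex.exp (Complex.I * (t * Real.log n : ℝ)) := by
        have h3 : -(1 + ((x : ℝ) : ℂ) + Complex.I * ((-t : ℝ) : ℂ)) =
            -(1 + x : ℂ) + Complex.I * (t : ℂ) := by push_cast; ring
        rw [h3, Complex.cpow_add _ _ hnc]
        congr 1
        rw [Complex.cpow_def_of_ne_zero hnc, ← Complex.natCast_log]
        congr 1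
        push_cast
        ring
      have h4 : Complex.exp (Complex.I * (t * (Real.log n - Real.log X) : ℝ)) =
          Complex.exp (Complex.I * (t * Real.log n : ℝ)) *
            Complex.exp (Complex.I * (-(t * Real.log X) : ℝ)) := by
        rw [← Complex.exp_add]
        congr 1
        push_cast
        ring
      rw [h2, h4]
      ring
  rw [h1, norm_mul, norm_mul, norm_mul, hexp, mul_one, Complex.norm_real, Real.norm_eq_abs,
    abs_of_nonneg (hw0 t), norm_pow, norm_neg, norm_one, one_pow, one_mul]

end Pool.Agent.Helper51.SW
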