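import Mathlib
import Pool.Agent.Helper51.SW.Lower

set_option autoImplicit false

namespace Pool.Agent.Helper51.SW

open Pool.Agent.Helper6.SW DirichletCharacter

theorem stLogDeriv_of (hD : StDeriv) (hL : StLower) : StLogDeriv := by
  obtain ⟨Cd, hCd0, hCd⟩ := hD
  obtain ⟨c₀, hc₀0, hc₀⟩ := hL
  set C : ℝ := Cd + 1 with hCdef
  set c : ℝ := min c₀ 1 with hcdef
  have hc0 : 0 < c := lt_min hc₀0 one_pos
  have hc1 : c ≤ 1 := min_le_right _ _
  have hC1 : 1 ≤ C := by linarith
  refine ⟨16 * C / c, by positivity, ?_⟩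
  intro k N _ χ hχ δ x t hδ0 hδ1 hδ hx0 hx1
  have hl := one_le_ell N t
  set l := ell N t with hldef
  have hlpos : 0 < l := by linarith
  have hl2 : 1 ≤ l ^ 2 := one_le_pow₀ hl
  have hl9 : 1 ≤ l ^ 9 := one_le_pow₀ hl
  set η : ℝ := c * δ / l ^ 9 with hη
  have hη0 : 0 < η := by rw [hη]; positivity
  have hη1 : η ≤ 1 := by
    rw [hη, div_le_one (by positivity)]
    nlinarith
  set s : ℂ := 1 + x + Complex.I * t with hs
  have hηL : η ≤ ‖LFunction χ s‖ := by
    refine le_trans ?_ (hc₀ N χ hχ δ x t hδ0 hδ1 hδ hx0 (by linarith))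
    rw [hη]
    apply div_le_div_of_nonneg_right _ (by positivity)
    exact mul_le_mul_of_nonneg_right (min_le_left _ _) hδ0.le
  set r : ℝ := η / (16 * C * l ^ 2) with hr
  have hr0 : 0 < r := by rw [hr]; positivity
  have hr16 : r ≤ 1 / (16 * l ^ 2) := by
    rw [hr, div_le_div_iff₀ (by positivity) (by positivity)]
    have : η * (16 * l ^ 2) ≤ 1 * (16 * l ^ 2) := mul_le_mul_of_nonneg_right hη1 (by positivity)
    nlinarith
  have hr16' : r ≤ 1 / 16 := hr16.trans (by
    rw [div_le_div_iff₀ (by positivity) (by norm_num)]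
    linarith)
  have hsre : s.re = 1 + x := by simp [hs]
  have hsim : s.im = t := by simp [hs]
  -- bound of the derivative in the closed ball
  have hderiv : ∀ z ∈ Metric.closedBall s r, ‖deriv (LFunction χ) z‖ ≤ 4 * C * l ^ 2 := by
    intro z hz
    rw [mem_closedBall_iff_norm] at hz
    have h1 : |z.re - s.re| ≤ r := (Complex.abs_re_le_norm (z - s)).trans hz
    have h2 : |z.im - s.im| ≤ r := (Complex.abs_im_le_norm (z - s)).trans hz
    rw [hsre] at h1
    rw [hsim] at h2
    have h1' := abs_le.1 h1
    have h3 : |z.im| ≤ |2 * t| + 1 := by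
      have h4 : |z.im| ≤ |t| + |z.im - t| := by
        have := abs_add_le t (z.im - t)
        simpa using this
      have h5 : |t| ≤ |2 * t| := by
        rw [abs_mul, abs_two]; nlinarith [abs_nonneg t]
      linarith
    have hell1 : 1 ≤ ell N z.im := one_le_ell N _
    have hell : ell N z.im ≤ 2 * l := by
      have hN : (1 : ℝ) ≤ N := by exact_mod_cast NeZero.one_le
      have h4 : ell N z.im ≤ Real.log 2 + l := by
        rw [hldef]
        unfold ell
        rw [← Real.log_mul (by norm_num) (by have := abs_nonneg t; positivity)]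
        apply Real.log_le_log
        · have := abs_nonneg z.im
          positivity
        · rw [abs_mul, abs_two] at h3
          nlinarith [abs_nonneg t]
      have h5 : Real.log 2 ≤ 1 := by have := Real.log_two_lt_d9; linarith
      linarith
    have h4 := hCd N χ hχ z (by
      have h5 : 1 / (16 * l ^ 2) ≤ 1 / (3 * ell N z.im) := by
        apply one_div_le_one_div_of_le (by positivity)
        nlinarith
      linarith [h1'.1]) (by linarith [h1'.2])
    refine h4.trans ?_
    have h5 : ell N z.im ^ 2 ≤ (2 * l) ^ 2 := pow_le_pow_left₀ (by linarith) hell 2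
    calc Cd * ell N z.im ^ 2 ≤ C * (2 * l) ^ 2 :=
          mul_le_mul (by linarith) h5 (by positivity) (by linarith)
      _ = 4 * C * l ^ 2 := by ring
  -- lower bound of the function
  have hlow : ∀ z ∈ Metric.closedBall s r, η / 2 ≤ ‖LFunction χ z‖ := by
    intro z hz
    have h1 := (convex_closedBall s r).norm_image_sub_le_of_norm_deriv_le (f := LFunction χ)
      (fun s _ => (differentiable_LFunction hχ).differentiableAt) hderiv
      (Metric.mem_closedBall_self hr0.le) hz
    rw [mem_closedBall_iff_norm] at hz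
    have h2 : 4 * C * l ^ 2 * ‖z - s‖ ≤ η / 4 := by
      refine (mul_le_mul_of_nonneg_left hz (by positivity)).trans (le_of_eq ?_)
      rw [hr]
      field_simp
      norm_num
    have h3 := norm_sub_norm_le (LFunction χ s) (LFunction χ z)
    rw [norm_sub_rev] at h3
    linarith
  have hne : ∀ z ∈ Metric.closedBall s r, LFunction χ z ≠ 0 := by
    intro z hz h0
    have := hlow z hz
    rw [h0, norm_zero] at this
    linarith
  have hdiff : DiffContOnCl ℂ (LD χ) (Metric.ball s r) := by
    apply DifferentiableOn.diffContOnCl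
    rw [closure_ball s hr0.ne']
    intro z hz
    apply DifferentiableAt.differentiableWithinAt
    unfold LD
    have h1 : DifferentiableAt ℂ (LFunction χ) z :=
      (differentiable_LFunction hχ).differentiableAt
    have h2 : DifferentiableAt ℂ (deriv (LFunction χ)) z :=
      ((differentiable_LFunction hχ).analyticAt z).deriv.differentiableAt
    exact h2.neg.div h1 (hne z hz)
  have hbd : ∀ z ∈ Metric.sphere s r, ‖LD χ z‖ ≤ 1 / r := by
    intro z hz
    have hz' := Metric.sphere_subset_closedBall hz
    unfold LD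
    rw [norm_div, norm_neg]
    have h1 := hderiv z hz'
    have h2 := hlow z hz'
    have h3 : 1 / r = (16 * C * l ^ 2) / η := by
      rw [hr]; field_simp
    rw [h3]
    rw [div_le_div_iff₀ (by linarith) hη0]
    have h4 : ‖deriv (LFunction χ) z‖ * η ≤ 4 * C * l ^ 2 * η :=
      mul_le_mul_of_nonneg_right h1 hη0.le
    have h5 : 16 * C * l ^ 2 * (η / 2) ≤ 16 * C * l ^ 2 * ‖LFunction χ z‖ :=
      mul_le_mul_of_nonneg_left h2 (by positivity)
    have h6 : 0 < C * l ^ 2 * η := by positivity
    linarith
  have hfin := Complex.norm_iteratedDeriv_le_of_forall_mem_sphere_norm_le k hr0 hdiff hbd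
  refine hfin.trans (le_of_eq ?_)
  have e1 : 16 * C / c * l ^ 11 / δ = 1 / r := by
    rw [hr, hη]
    field_simp
  have e2 : (1 / r) ^ (k + 1) = (1 / r) / r ^ k := by
    rw [pow_succ, one_div_pow]; ring
  rw [e1, e2]
  ring

end Pool.Agent.Helper51.SW
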